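import Pool.Agent.Helper6.NX.GoalsA

/-! Packet NX-L2 (MP_75608d_al): the entropy is monotone in the information. -/

namespace Pool.Agent.Helper88.NX

open Pool.Agent.Helper6.NX

theorem thmL2 : Pool.Agent.Helper6.NX.S_L2 := by
  classical
  intro Ω α β _ P X Y hP hXY
  obtain ⟨h0, h1⟩ := hP
  have key : ∀ ω, P ω * Real.log (law P X (X ω)) ≤ P ω * Real.log (law P Y (Y ω)) := by
    intro ω
    rcases (h0 ω).eq_or_lt with h | h
    · rw [← h]; simp
    · apply mul_le_mul_of_nonneg_left _ h.le
      have hle : law P X (X ω) ≤ law P Y (Y ω) := by
        unfold law
        apply Finset.sum_le_sum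
        intro ω' _
        by_cases hx : X ω' = X ω
        · rw [if_pos hx]
          rcases (h0 ω').eq_or_lt with h' | h'
          · rw [← h']; simp
          · rw [if_pos (hXY ω' ω h' h hx)]
        · rw [if_neg hx]
          split_ifs
          · exact h0 ω'
          · exact le_rfl
      have hpos : 0 < law P X (X ω) := by
        refine lt_of_lt_of_le h ?_
        unfold law
        calc P ω = (if X ω = X ω then P ω else 0) := by simp
          _ ≤ ∑ ω', if X ω' = X ω then P ω' else 0 := by
            apply Finset.single_le_sum (f := fun ω' => if X ω' = X ω then P ω' else 0)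
            · intro i _
              split_ifs
              · exact h0 i
              · exact le_rfl
            · exact Finset.mem_univ ω
      exact Real.log_le_log hpos hle
  unfold ent
  exact neg_le_neg (Finset.sum_le_sum fun ω _ => key ω)

end Pool.Agent.Helper88.NX
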